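import Mathlib

set_option autoImplicit false

namespace Pool.Agent.Results.MP_f45649_co.OddWheelsWithW5

open SimpleGraph Finset Filter

/-- The disjoint union of the odd wheels `W_{2 k_i + 1}`: the vertex `⟨i, none⟩` is the hub of the
`i`-th wheel, the vertices `⟨i, some a⟩`, `a < 2 k_i`, are on its cycle. -/
def wheels {m : ℕ} (k : Fin m → ℕ) : SimpleGraph (Σ i : Fin m, Option (Fin (2 * k i))) :=
  SimpleGraph.fromRel fun x y => x.1 = y.1 ∧
    ((x.2 = none ∧ y.2 ≠ none) ∨
      ∃ (a : Fin (2 * k x.1)) (b : Fin (2 * k y.1)), x.2 = some a ∧ y.2 = some b ∧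
        (b : ℕ) = (a + 1) % (2 * k x.1))

/-- The disjoint union of the stars `S_{k_i + 1} = K_{1, k_i}`: the vertex `⟨i, none⟩` is the centre
of the `i`-th star. -/
def stars {m : ℕ} (k : Fin m → ℕ) : SimpleGraph (Σ i : Fin m, Option (Fin (k i))) :=
  SimpleGraph.fromRel fun x y => x.1 = y.1 ∧ x.2 = none

/-- The value in the question: the maximum over `1 ≤ n₀ ≤ n` of
`n₀ (n - n₀) + ex(n₀, F*) + 1`. -/
noncomputable def formula {m : ℕ} (k : Fin m → ℕ) (n : ℕ) : ℕ :=
  (Finset.Icc 1 n).sup fun n₀ => n₀ * (n - n₀) + extremalNumber n₀ (stars k) + 1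

/-- The graph of the lower bound: `none` is joined to everything, the other vertices form a
complete bipartite graph with a perfect matching in each of the two parts. -/
def big (t : ℕ) : SimpleGraph (Option (Bool × Fin t × Bool)) where
  Adj a b := match a, b with
    | none, none => False
    | none, some _ => True
    | some _, none => True
    | some x, some y => x.1 ≠ y.1 ∨ (x.2.1 = y.2.1 ∧ x.2.2 ≠ y.2.2)
  symm := ⟨by
    rintro (_ | x) (_ | y) h
    · exact h
    · trivial
    · trivial
    · rcases h with h | h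
      · exact Or.inl h.symm
      · exact Or.inr ⟨h.1.symm, h.2.symm⟩⟩
  loopless := ⟨by
    rintro (_ | x) h
    · exact h
    · rcases h with h | h
      · exact h rfl
      · exact h.2 rfl⟩

instance (t : ℕ) : DecidableRel (big t).Adj := fun a b => by
  rcases a with _ | x <;> rcases b with _ | y <;> unfold big <;> dsimp only <;> infer_instance

lemma degree_none (t : ℕ) : (big t).degree none = 4 * t := by
  rw [← SimpleGraph.card_neighborFinset_eq_degree]
  have : (big t).neighborFinset none = Finset.univ.filter fun v => v ≠ none := by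
    ext v
    rw [SimpleGraph.mem_neighborFinset]
    rcases v with _ | y <;> simp [big]
  rw [this, Finset.filter_ne', Finset.card_erase_of_mem (Finset.mem_univ _)]
  simp
  ring

lemma degree_some (t : ℕ) (x : Bool × Fin t × Bool) : (big t).degree (some x) = 2 * t + 2 := by
  obtain ⟨s, i, w⟩ := x
  rw [← SimpleGraph.card_neighborFinset_eq_degree]
  have : (big t).neighborFinset (some (s, i, w)) =
      insert none (insert (some (s, i, !w))
        ((Finset.univ : Finset (Fin t × Bool)).image fun y => some (!s, y))) := by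
    ext v
    rw [SimpleGraph.mem_neighborFinset]
    rcases v with _ | ⟨s', i', w'⟩
    · simp [big]
    · simp only [big, Finset.mem_insert, Finset.mem_image, Finset.mem_univ, true_and,
        Option.some.injEq, Prod.mk.injEq, reduceCtorEq, false_or, Prod.exists]
      rcases s <;> rcases s' <;> rcases w <;> rcases w' <;> simp <;> exact eq_comm
  rw [this, Finset.card_insert_of_notMem, Finset.card_insert_of_notMem,
    Finset.card_image_of_injective]
  · simp
    ring
  · intro a b h
    simpa using h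
  · simp
  · simp

lemma big_edges (t : ℕ) : #(big t).edgeFinset = 4 * t ^ 2 + 6 * t := by
  have h := (big t).sum_degrees_eq_twice_card_edges
  rw [Fintype.sum_option, degree_none] at h
  simp only [degree_some, Finset.sum_const, Finset.card_univ, Fintype.card_prod, Fintype.card_bool,
    Fintype.card_fin, smul_eq_mul] at h
  nlinarith

lemma mod_ne (l j c : ℕ) (hc : 0 < c) (hcl : c < l) : (j + c) % l ≠ j % l := by
  intro h
  have h1 : j + c ≡ j + 0 [MOD l] := by simpa [Nat.ModEq] using h
  have h2 : c ≡ 0 [MOD l] := Nat.ModEq.add_left_cancel' j h1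
  have h3 : c % l = 0 := by simpa [Nat.ModEq] using h2
  rw [Nat.mod_eq_of_lt hcl] at h3
  omega

/-- The graph `big t` without the vertex `none` contains no wheel with at least four spokes. -/
lemma no_wheel (t l : ℕ) (hl : 4 ≤ l) (f : Option (Fin l) → Option (Bool × Fin t × Bool))
    (hf : Function.Injective f) (h0 : ∀ x, f x ≠ none)
    (hhub : ∀ a, (big t).Adj (f none) (f (some a)))
    (hrim : ∀ a b : Fin l, (b : ℕ) = (a + 1) % l → (big t).Adj (f (some a)) (f (some b))) :
    False := by
  have hl0 : 0 < l := by omega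
  let g : ℕ → Option (Bool × Fin t × Bool) := fun j => f (some ⟨j % l, Nat.mod_lt _ hl0⟩)
  have hg1 : ∀ j, (big t).Adj (g j) (g (j + 1)) := by
    intro j
    refine hrim _ _ ?_
    simp
  have hg2 : ∀ j c, 0 < c → c < l → g (j + c) ≠ g j := by
    intro j c hc hcl h
    have h1 := hf h
    simp only [Option.some.injEq, Fin.mk.injEq] at h1
    exact mod_ne l j c hc hcl h1
  rcases hn : f none with _ | ⟨s, i, w⟩
  · exact h0 none hn
  -- vertices of the rim other than the partner of the hub lie on the other side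
  have hside : ∀ j, g j ≠ some (s, i, !w) → ∃ y, g j = some (!s, y) := by
    intro j hj
    have h1 := hhub ⟨j % l, Nat.mod_lt _ hl0⟩
    rw [hn] at h1
    change (big t).Adj (some (s, i, w)) (g j) at h1
    rcases hgj : g j with _ | ⟨s', i', w'⟩
    · exact absurd hgj (h0 _)
    · rw [hgj] at h1 hj
      refine ⟨(i', w'), ?_⟩
      simp only [big] at h1
      rcases h1 with h1 | ⟨h1, h2⟩
      · congr 1
        ext <;> simp
        rcases s <;> rcases s' <;> simp_all
      · by_cases hs : s = s'
        · exfalso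
          apply hj
          subst hs
          subst h1
          congr 3
          rcases w <;> rcases w' <;> simp_all
        · congr 1
          ext <;> simp
          rcases s <;> rcases s' <;> simp_all
  obtain ⟨j, hj1, hj2, hj3⟩ : ∃ j, g j ≠ some (s, i, !w) ∧ g (j + 1) ≠ some (s, i, !w) ∧
      g (j + 2) ≠ some (s, i, !w) := by
    by_cases h : ∃ j, g j = some (s, i, !w)
    · obtain ⟨j, hj⟩ := h
      refine ⟨j + 1, ?_, ?_, ?_⟩
      · rw [← hj]; exact hg2 j 1 (by omega) (by omega)
      · rw [← hj]; exact hg2 j 2 (by omega) (by omega)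
      · rw [← hj]; exact hg2 j 3 (by omega) (by omega)
    · push Not at h
      exact ⟨0, h 0, h _, h _⟩
  obtain ⟨⟨i1, w1⟩, h1⟩ := hside _ hj1
  obtain ⟨⟨i2, w2⟩, h2⟩ := hside _ hj2
  obtain ⟨⟨i3, w3⟩, h3⟩ := hside _ hj3
  have a1 := hg1 j
  have a2 := hg1 (j + 1)
  rw [h1, h2] at a1
  rw [h2] at a2
  change (big t).Adj _ (g (j + 2)) at a2
  rw [h3] at a2
  simp only [big, ne_eq, not_true_eq_false, false_or] at a1 a2
  apply hg2 j 2 (by omega) (by omega)
  rw [h1, h3]
  obtain ⟨b1, c1⟩ := a1
  obtain ⟨b2, c2⟩ := a2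
  subst b1
  subst b2
  congr 4
  rcases w1 <;> rcases w2 <;> rcases w3 <;> simp_all

lemma big_free (t : ℕ) (k : Fin 2 → ℕ) (hk : ∀ i, 2 ≤ k i) : (wheels k).Free (big t) := by
  rintro ⟨φ⟩
  have hφ : Function.Injective φ := φ.injective
  have key : ∀ i : Fin 2, (∀ x, φ ⟨i, x⟩ ≠ none) → False := by
    intro i hi
    refine no_wheel t (2 * k i) (by have := hk i; omega) (fun x => φ ⟨i, x⟩) ?_ hi ?_ ?_
    · intro a b h
      have := hφ h
      simpa using this
    · intro a
      apply φ.toHom.map_adj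
      simp [wheels]
    · intro a b h
      apply φ.toHom.map_adj
      simp only [wheels, SimpleGraph.fromRel_adj]
      refine ⟨?_, Or.inl ⟨trivial, Or.inr ⟨a, b, rfl, rfl, h⟩⟩⟩
      intro hab
      simp only [Sigma.mk.injEq, heq_eq_eq, Option.some.injEq, true_and] at hab
      subst hab
      have h1 : (a : ℕ) % (2 * k i) = a := Nat.mod_eq_of_lt a.2
      have := mod_ne (2 * k i) a 1 (by omega) (by have := hk i; omega)
      omega
  by_cases h : ∃ x, φ ⟨0, x⟩ = none
  · obtain ⟨x, hx⟩ := h
    refine key 1 fun y hy => ?_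
    have := hφ (hx.trans hy.symm)
    simp at this
  · push Not at h
    exact key 0 h

/-- the lower bound -/
lemma lower (t : ℕ) (k : Fin 2 → ℕ) (hk : ∀ i, 2 ≤ k i) :
    4 * t ^ 2 + 6 * t ≤ extremalNumber (4 * t + 1) (wheels k) := by
  have h := card_edgeFinset_le_extremalNumber (big_free t k hk)
  rw [big_edges] at h
  have hc : Fintype.card (Option (Bool × Fin t × Bool)) = 4 * t + 1 := by
    simp
    ring
  rwa [hc] at h

/-- auxiliary function for the leaves of two stars -/
def leaves {V : Type*} (k : Fin 2 → ℕ) (e0 : Fin (k 0) → V) (e1 : Fin (k 1) → V) :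
    ∀ i : Fin 2, Fin (k i) → V
  | 0 => e0
  | 1 => e1

lemma contained {V : Type*} [DecidableEq V] {G : SimpleGraph V} (k : Fin 2 → ℕ) (v u : V)
    (A B : Finset V) (hA : #A = k 0) (hB : #B = k 1) (hvA : ∀ a ∈ A, G.Adj v a)
    (huB : ∀ b ∈ B, G.Adj u b) (huv : u ≠ v) (huA : u ∉ A) (hvB : v ∉ B)
    (hAB : Disjoint A B) : stars k ⊑ G := by
  let eA := (A.equivFinOfCardEq hA).symm
  let eB := (B.equivFinOfCardEq hB).symm
  let L := leaves k (fun j => (eA j : V)) (fun j => (eB j : V))
  let c : Fin 2 → V := ![v, u]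
  have hL0 : ∀ j, L 0 j ∈ A := fun j => (eA j).2
  have hL1 : ∀ j, L 1 j ∈ B := fun j => (eB j).2
  have hadj : ∀ i j, G.Adj (c i) (L i j) := by
    refine Fin.forall_fin_two.2 ⟨fun j => hvA _ (hL0 j), fun j => huB _ (hL1 j)⟩
  have hLi : ∀ i, Function.Injective (L i) := by
    refine Fin.forall_fin_two.2 ⟨fun a b h => ?_, fun a b h => ?_⟩
    · exact eA.injective (Subtype.ext h)
    · exact eB.injective (Subtype.ext h)
  have hLL : ∀ a b, L 0 a ≠ L 1 b := fun a b h =>
    (Finset.disjoint_left.1 hAB) (hL0 a) (h ▸ hL1 b)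
  have hcL : ∀ i j a, c i ≠ L j a := by
    refine Fin.forall_fin_two.2 ⟨Fin.forall_fin_two.2 ⟨fun a h => ?_, fun a h => ?_⟩,
      Fin.forall_fin_two.2 ⟨fun a h => ?_, fun a h => ?_⟩⟩
    · exact (hadj 0 a).ne h
    · have h' : v = L 1 a := h
      exact hvB (h' ▸ hL1 a)
    · have h' : u = L 0 a := h
      exact huA (h' ▸ hL0 a)
    · exact (hadj 1 a).ne h
  have hcc : ∀ i j, c i = c j → i = j := by
    refine Fin.forall_fin_two.2 ⟨Fin.forall_fin_two.2 ⟨fun _ => rfl, fun h => ?_⟩,
      Fin.forall_fin_two.2 ⟨fun h => ?_, fun _ => rfl⟩⟩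
    · exact absurd h.symm huv
    · exact absurd h huv
  have hLe : ∀ i j a b, L i a = L j b → (⟨i, some a⟩ : Σ i : Fin 2, Option (Fin (k i))) =
      ⟨j, some b⟩ := by
    refine Fin.forall_fin_two.2 ⟨Fin.forall_fin_two.2 ⟨fun a b h => ?_, fun a b h => ?_⟩,
      Fin.forall_fin_two.2 ⟨fun a b h => ?_, fun a b h => ?_⟩⟩
    · rw [hLi 0 h]
    · exact absurd h (hLL a b)
    · exact absurd h.symm (hLL b a)
    · rw [hLi 1 h]
  let φ : (Σ i : Fin 2, Option (Fin (k i))) → V := fun x =>
    match x with
    | ⟨i, none⟩ => c i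
    | ⟨i, some j⟩ => L i j
  have hφ : Function.Injective φ := by
    rintro ⟨i, _ | a⟩ ⟨j, _ | b⟩ h
    · have := hcc i j h
      subst this
      rfl
    · exact absurd h (hcL i j b)
    · exact absurd h.symm (hcL j i a)
    · exact hLe i j a b h
  have h1 : ∀ x y : Σ i : Fin 2, Option (Fin (k i)), x ≠ y → x.1 = y.1 → x.2 = none →
      G.Adj (φ x) (φ y) := by
    rintro ⟨i, _ | a⟩ ⟨j, _ | b⟩ hne hij hx
    · exact absurd (by simpa using hij) (fun h => hne (by subst h; rfl))
    · have hij' : i = j := hij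
      subst hij'
      exact hadj i b
    · exact absurd hx (by simp)
    · exact absurd hx (by simp)
  refine ⟨⟨⟨φ, ?_⟩, hφ⟩⟩
  intro x y h
  rw [stars, SimpleGraph.fromRel_adj] at h
  obtain ⟨hne, h | h⟩ := h
  · exact h1 x y hne h.1 h.2
  · exact (h1 y x hne.symm h.1 h.2).symm

lemma upper {V : Type*} [Fintype V] (G : SimpleGraph V) [DecidableRel G.Adj] (a : ℕ)
    (ha : a ≤ 4) (hG : (stars ![a, 2]).Free G) : 2 * #G.edgeFinset ≤ 3 * Fintype.card V + 210 := by
  classical
  have key : ∀ (v u x y : V) (A : Finset V), A ⊆ G.neighborFinset v → #A = a → x ≠ y →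
      G.Adj u x → G.Adj u y → u ≠ v → u ∉ A → x ∉ A → y ∉ A → x ≠ v → y ≠ v → False := by
    intro v u x y A hA hc hxy hux huy huv huA hxA hyA hxv hyv
    refine hG (contained ![a, 2] v u A {x, y} hc ?_ ?_ ?_ huv huA ?_ ?_)
    · rw [Finset.card_pair hxy]; rfl
    · intro b hb
      exact (SimpleGraph.mem_neighborFinset _ _ _).1 (hA hb)
    · intro b hb
      rw [Finset.mem_insert, Finset.mem_singleton] at hb
      rcases hb with rfl | rfl <;> assumption
    · rw [Finset.mem_insert, Finset.mem_singleton]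
      rintro (h | h)
      · exact hxv h.symm
      · exact hyv h.symm
    · rw [Finset.disjoint_right]
      intro b hb
      rw [Finset.mem_insert, Finset.mem_singleton] at hb
      rcases hb with rfl | rfl <;> assumption
  rw [← G.sum_degrees_eq_twice_card_edges]
  by_cases h1 : ∀ v, G.degree v ≤ 3
  · calc ∑ v, G.degree v ≤ ∑ _v : V, 3 := Finset.sum_le_sum fun v _ => h1 v
      _ = 3 * Fintype.card V := by simp [mul_comm]
      _ ≤ _ := by omega
  push Not at h1
  by_cases h2 : ∃ v, 7 ≤ G.degree v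
  · obtain ⟨v, hv⟩ := h2
    have h3 : ∀ u, G.degree u ≤ 2 + (if u = v then Fintype.card V else 0) := by
      intro u
      split_ifs with huv
      · have := G.degree_lt_card_verts u
        omega
      · by_contra hu
        have hu' : 3 ≤ #(G.neighborFinset u) := by
          rw [SimpleGraph.card_neighborFinset_eq_degree]; omega
        have hu2 : 1 < #((G.neighborFinset u).erase v) := by
          have := Finset.pred_card_le_card_erase (s := G.neighborFinset u) (a := v)
          omega
        obtain ⟨x, hx, y, hy, hxy⟩ := Finset.one_lt_card.1 hu2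
        rw [Finset.mem_erase, SimpleGraph.mem_neighborFinset] at hx hy
        have hc : a ≤ #(G.neighborFinset v \ {u, x, y}) := by
          have h5 := Finset.le_card_sdiff ({u, x, y} : Finset V) (G.neighborFinset v)
          have h6 : #({u, x, y} : Finset V) ≤ 3 := Finset.card_le_three
          rw [SimpleGraph.card_neighborFinset_eq_degree] at h5
          omega
        obtain ⟨A, hA, hAc⟩ := Finset.exists_subset_card_eq hc
        have hn : ∀ z, z ∈ ({u, x, y} : Finset V) → z ∉ A := fun z hz hzA =>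
          (Finset.mem_sdiff.1 (hA hzA)).2 hz
        exact key v u x y A (hA.trans Finset.sdiff_subset) hAc hxy hx.2 hy.2 huv
          (hn u (by simp)) (hn x (by simp)) (hn y (by simp)) hx.1 hy.1
    calc ∑ u, G.degree u ≤ ∑ u : V, (2 + (if u = v then Fintype.card V else 0)) :=
          Finset.sum_le_sum fun u _ => h3 u
      _ = 2 * Fintype.card V + Fintype.card V := by
          rw [Finset.sum_add_distrib, Finset.sum_ite_eq']
          simp [mul_comm]
      _ ≤ _ := by omega
  · push Not at h2
    obtain ⟨v, hv⟩ := h1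
    have hc : a ≤ #(G.neighborFinset v) := by
      rw [SimpleGraph.card_neighborFinset_eq_degree]; omega
    obtain ⟨A, hA, hAc⟩ := Finset.exists_subset_card_eq hc
    set B := insert v A with hB
    set X := B ∪ B.biUnion fun b => G.neighborFinset b with hX
    have hBc : #B ≤ 5 := by
      have : #B ≤ #A + 1 := Finset.card_insert_le v A
      omega
    have hXc : #X ≤ 35 := by
      have h5 : #X ≤ #B + #(B.biUnion fun b => G.neighborFinset b) := Finset.card_union_le _ _
      have h6 : #(B.biUnion fun b => G.neighborFinset b) ≤ #B * 6 := by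
        refine Finset.card_biUnion_le_card_mul _ _ _ fun b _ => ?_
        rw [SimpleGraph.card_neighborFinset_eq_degree]
        have := h2 b
        omega
      omega
    have h3 : ∀ u, G.degree u ≤ 1 + (if u ∈ X then 6 else 0) := by
      intro u
      split_ifs with huX
      · have := h2 u
        omega
      · by_contra hu
        have hu2 : 1 < #(G.neighborFinset u) := by
          rw [SimpleGraph.card_neighborFinset_eq_degree]; omega
        obtain ⟨x, hx, y, hy, hxy⟩ := Finset.one_lt_card.1 hu2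
        rw [SimpleGraph.mem_neighborFinset] at hx hy
        have huB : u ∉ B := fun h => huX (Finset.mem_union_left _ h)
        have hnB : ∀ z, G.Adj u z → z ∉ B := fun z hz hzB => huX (Finset.mem_union_right _
          (Finset.mem_biUnion.2 ⟨z, hzB, (SimpleGraph.mem_neighborFinset _ _ _).2 hz.symm⟩))
        have hB2 : ∀ z, z ∉ B → z ≠ v ∧ z ∉ A := fun z hz =>
          ⟨fun h => hz (h ▸ Finset.mem_insert_self _ _), fun h => hz (Finset.mem_insert_of_mem h)⟩
        exact key v u x y A hA hAc hxy hx hy (hB2 u huB).1 (hB2 u huB).2 (hB2 x (hnB x hx)).2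
          (hB2 y (hnB y hy)).2 (hB2 x (hnB x hx)).1 (hB2 y (hnB y hy)).1
    calc ∑ u, G.degree u ≤ ∑ u : V, (1 + (if u ∈ X then 6 else 0)) :=
          Finset.sum_le_sum fun u _ => h3 u
      _ = Fintype.card V + #X * 6 := by
          rw [Finset.sum_add_distrib, Finset.sum_ite_mem]
          simp
      _ ≤ _ := by omega

lemma upper_ex (a n : ℕ) (ha : a ≤ 4) : 2 * extremalNumber n (stars ![a, 2]) ≤ 3 * n + 210 := by
  have h : extremalNumber (Fintype.card (Fin n)) (stars ![a, 2]) ≤ (3 * n + 210) / 2 := by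
    rw [extremalNumber_le_iff]
    intro G _ hG
    have := upper G a ha hG
    rw [Fintype.card_fin] at this
    omega
  rw [Fintype.card_fin] at h
  omega

lemma formula_le (a t : ℕ) (ha : a ≤ 4) :
    formula ![a, 2] (4 * t + 1) ≤ 4 * t ^ 2 + 5 * t + 108 := by
  unfold formula
  rw [Finset.sup_le_iff]
  intro b hb
  rw [Finset.mem_Icc] at hb
  obtain ⟨c, hc⟩ := Nat.exists_eq_add_of_le hb.2
  have h1 := upper_ex a b ha
  have h2 : 4 * t + 1 - b = c := by omega
  rw [h2]
  have h3 : 2 * (b * c) + 3 * b ≤ 8 * t ^ 2 + 10 * t + 3 := by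
    zify at hc ⊢
    by_contra hcon
    push Not at hcon
    nlinarith [sq_nonneg (2 * ((b : ℤ) - c) - 3)]
  omega

theorem result :
    -- the formula fails for `F = W_{2a+1} ∪ W_5`, `a = 2, 3, 4`
    (∀ a : ℕ, 2 ≤ a → a ≤ 4 →
      (∀ t : ℕ, formula ![a, 2] (4 * t + 1) + t ≤
        extremalNumber (4 * t + 1) (wheels ![a, 2]) + 108) ∧
      ∃ᶠ n in atTop, extremalNumber n (wheels ![a, 2]) ≠ formula ![a, 2] n) ∧
    -- the assertion of the question is false
    ¬ ∀ (m : ℕ) (k : Fin m → ℕ), 1 ≤ m → Antitone k → (∀ i, 2 ≤ k i) →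
      ∀ᶠ n in atTop, extremalNumber n (wheels k) = formula k n := by
  have h1 : ∀ a : ℕ, 2 ≤ a → a ≤ 4 →
      (∀ t : ℕ, formula ![a, 2] (4 * t + 1) + t ≤
        extremalNumber (4 * t + 1) (wheels ![a, 2]) + 108) ∧
      ∃ᶠ n in atTop, extremalNumber n (wheels ![a, 2]) ≠ formula ![a, 2] n := by
    intro a ha2 ha4
    have hk : ∀ i, 2 ≤ (![a, 2] : Fin 2 → ℕ) i := Fin.forall_fin_two.2 ⟨ha2, le_refl 2⟩
    have h2 : ∀ t : ℕ, formula ![a, 2] (4 * t + 1) + t ≤
        extremalNumber (4 * t + 1) (wheels ![a, 2]) + 108 := by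
      intro t
      have h3 := formula_le a t ha4
      have h4 := lower t ![a, 2] hk
      omega
    refine ⟨h2, ?_⟩
    rw [Filter.frequently_atTop]
    intro N
    refine ⟨4 * (N + 109) + 1, by omega, ?_⟩
    have := h2 (N + 109)
    omega
  refine ⟨h1, fun h => ?_⟩
  have h2 := (h1 2 le_rfl (by norm_num)).2
  have h3 := h 2 ![2, 2] (by norm_num) (by
    intro i j _
    fin_cases i <;> fin_cases j <;> simp) (Fin.forall_fin_two.2 ⟨le_rfl, le_rfl⟩)
  obtain ⟨n, hn1, hn2⟩ := (h2.and_eventually h3).exists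
  exact hn1 hn2

end Pool.Agent.Results.MP_f45649_co.OddWheelsWithW5
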